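import Pool.Agent.R993.RR.Main1
import Pool.Agent.H152R2.RR.St3
import Pool.Agent.H152R2.RR.St4

/-!
The negated form of Q1 of MP_7a141f_an: for `B = 1 / 2 ^ 1664`, which lies in
`(0, √2 - 1)`, every positive solution of `y(n+1) = (B + y(n)) / (B + y(n-2))`
(here indexed from `0`) converges to the equilibrium `1` or to a positive
periodic solution (of period `97`).
-/

namespace Pool.Agent.Results.MP_7a141f_an.PeriodicLimits

open Filter Topology

theorem result :
    ∃ B : ℝ, B = 1 / 2 ^ 1664 ∧ 0 < B ∧ B < Real.sqrt 2 - 1 ∧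
      ∀ y : ℕ → ℝ, (∀ n, 0 < y n) → (∀ n, y (n + 3) = (B + y (n + 2)) / (B + y n)) →
        Tendsto y atTop (𝓝 1) ∨
        ∃ p : ℕ → ℝ, (∀ n, 0 < p n) ∧ (∀ n, p (n + 3) = (B + p (n + 2)) / (B + p n)) ∧
          (∀ n, p (n + 97) = p n) ∧ Tendsto (fun n => |y n - p n|) atTop (𝓝 0) :=
  Pool.Agent.R993.RR.main1 Pool.Agent.H152R2.RR.st3 Pool.Agent.H152R2.RR.st4

end Pool.Agent.Results.MP_7a141f_an.PeriodicLimits
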